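import Pool.Agent.H393Z.Mis.Main

set_option autoImplicit false

namespace Pool.Agent.Results.MP_bc0e65_co.AllPeriods

open Pool.Agent.H393Z.Mis

/-- Every integer `p ≥ 1` is the period of an element of some misère quotient. -/
theorem result (p : ℕ) (hp : 1 ≤ p) :
    ∃ (A : Set Game) (x : Game), Closed A ∧ x ∈ A ∧ HasPeriod A x p :=
  all_periods p hp

end Pool.Agent.Results.MP_bc0e65_co.AllPeriods
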